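import Pool.Agent.H66.FA.T

/-!
# Integration by parts
-/

set_option autoImplicit false

open Matrix

namespace Pool.Agent.H81.FAB

open Pool.Agent.H63.Fins Pool.Agent.H66.FA MeasureTheory Filter Topology

/-- expansion in unit vectors -/
theorem lin_expand {n : ℕ} {F : Type} [NormedAddCommGroup F] [NormedSpace ℝ F]
    (A : V n →L[ℝ] F) (y : V n) : A y = ∑ k, y k • A (ee k) := by
  have h : y = ∑ k, y k • (ee k : V n) := by
    funext j
    rw [Finset.sum_apply, Finset.sum_eq_single j]
    · simp [ee]
    · intro b _ hb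
      simp [ee, hb.symm]
    · intro h
      exact absurd (Finset.mem_univ j) h
  conv_lhs => rw [h]
  rw [map_sum]
  exact Finset.sum_congr rfl fun k _ => map_smul A _ _

/-- the derivative of a function of degree zero in the radial direction -/
theorem radial_zero {n : ℕ} (f : V n → ℝ) (y : V n) (hf : DifferentiableAt ℝ f y)
    (h : ∀ c : ℝ, 0 < c → f (c • y) = f y) : fderiv ℝ f y y = 0 := by
  have h1 : HasDerivAt (fun c : ℝ => c • y) y 1 := by
    have := (hasDerivAt_id (1 : ℝ)).smul_const y
    simpa using this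
  have h2 : HasFDerivAt f (fderiv ℝ f y) ((fun c : ℝ => c • y) 1) := by
    simpa using hf.hasFDerivAt
  have h3 : HasDerivAt (fun c : ℝ => f (c • y)) (fderiv ℝ f y y) 1 := h2.comp_hasDerivAt 1 h1
  have h4 : HasDerivAt (fun c : ℝ => f (c • y)) 0 1 := by
    refine (hasDerivAt_const (1 : ℝ) (f y)).congr_of_eventuallyEq ?_
    filter_upwards [lt_mem_nhds (show (0 : ℝ) < 1 by norm_num)] with c hc
    exact h c hc
  exact h3.unique h4

/-- the integral of a partial derivative of a function with compact support -/
theorem int_partial {n : ℕ} (W : V n → ℝ) (hW : ContDiff ℝ 1 W) (hs : HasCompactSupport W)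
    (u : V n) : Integrable (fun y => fderiv ℝ W y u) ∧ ∫ y, fderiv ℝ W y u = 0 := by
  have hc : Continuous fun y => fderiv ℝ W y u :=
    (hW.continuous_fderiv one_ne_zero).clm_apply continuous_const
  have hs' : HasCompactSupport fun y => fderiv ℝ W y u := by
    have := hs.fderiv (𝕜 := ℝ)
    exact this.comp_left (g := fun A : V n →L[ℝ] ℝ => A u) rfl
  have hi : Integrable (fun y => fderiv ℝ W y u) := hc.integrable_of_hasCompactSupport hs'
  refine ⟨hi, ?_⟩
  have h := integral_mul_fderiv_eq_neg_fderiv_mul_of_integrable (μ := (volume : Measure (V n)))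
    (f := fun _ : V n => (1 : ℝ)) (g := W) (v := u) (𝕜 := ℝ)
    (by simp) (by simpa using hi)
    (by simpa using hW.continuous.integrable_of_hasCompactSupport hs)
    (fun _ _ => differentiableAt_const _) (fun _ _ => hW.differentiable (by norm_num) _)
  simpa using h

/-- **integration by parts** -/
theorem pf_INT (h1 : T_EUL) (h2 : T_REG) (h3 : T_CPT) (h4 : T_DIV) : T_INT := by
  intro n L d hL hd v φ hφ hφc hφs
  have hopen : IsOpen {y : V n | y ≠ 0} := isOpen_ne
  obtain ⟨hLc, -, -, hd2, -, hgi, hpt⟩ := h2 n L hL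
  obtain ⟨⟨a, ha, hLa⟩, -⟩ := h3 n L hL
  -- the function of degree zero
  obtain ⟨f, hf⟩ : ∃ f : V n → ℝ, f = fun w => d2 L w v v := ⟨_, rfl⟩
  have hfs : ContDiffOn ℝ (⊤ : ℕ∞) f {y | y ≠ 0} := by
    rw [hf]
    exact hd2 v v
  obtain ⟨F, hF⟩ : ∃ F : Fin n → V n → ℝ, F = fun j z => fderiv ℝ f z (ee j) := ⟨_, rfl⟩
  have hfa : ∀ y, y ≠ 0 → ContDiffAt ℝ (⊤ : ℕ∞) f y := fun y hy =>
    hfs.contDiffAt (hopen.mem_nhds hy)
  have hFa : ∀ j y, y ≠ 0 → ContDiffAt ℝ (⊤ : ℕ∞) (F j) y := by
    intro j y hy
    rw [hF]
    have h5 : ContDiffAt ℝ (⊤ : ℕ∞) (fderiv ℝ f) y := (hfa y hy).fderiv_right (by simp)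
    exact h5.clm_apply contDiffAt_const
  have hga : ∀ i j y, y ≠ 0 → ContDiffAt ℝ (⊤ : ℕ∞) (gi L i j) y := fun i j y hy =>
    (hgi i j).contDiffAt (hopen.mem_nhds hy)
  have hLa' : ∀ y, y ≠ 0 → ContDiffAt ℝ (⊤ : ℕ∞) L y := fun y hy =>
    hL.smooth.contDiffAt (hopen.mem_nhds hy)
  obtain ⟨W, hW⟩ : ∃ W : Fin n → V n → ℝ, W = fun i y => φ (L y) * ∑ j, gi L i j y * F j y :=
    ⟨_, rfl⟩
  -- `φ ∘ L` vanishes near the origin
  have hz : ∀ᶠ y in 𝓝 (0 : V n), φ (L y) = 0 := by
    have h5 : (tsupport φ)ᶜ ∈ 𝓝 (L (0 : V n)) := by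
      rw [hL.zero]
      refine (isClosed_tsupport φ).isOpen_compl.mem_nhds fun h => ?_
      exact absurd (Set.mem_Ioi.1 (hφs h)) (lt_irrefl _)
    filter_upwards [hLc.continuousAt.preimage_mem_nhds h5] with y hy
    exact image_eq_zero_of_notMem_tsupport hy
  have hWz : ∀ i, W i =ᶠ[𝓝 (0 : V n)] fun _ => 0 := by
    intro i
    filter_upwards [hz] with y hy
    rw [hW]
    change φ (L y) * _ = 0
    rw [hy, zero_mul]
  have hWs : ∀ i, ContDiff ℝ 1 (W i) := by
    intro i
    rw [contDiff_iff_contDiffAt]
    intro y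
    by_cases hy : y = 0
    · rw [hy]
      exact contDiffAt_const.congr_of_eventuallyEq (hWz i)
    · have h5 : ContDiffAt ℝ (⊤ : ℕ∞) (W i) y := by
        rw [hW]
        refine ContDiffAt.mul (hφ.contDiffAt.comp y (hLa' y hy)) ?_
        exact ContDiffAt.sum fun j _ => (hga i j y hy).mul (hFa j y hy)
      exact h5.of_le (by exact_mod_cast le_top)
  have hWc : ∀ i, HasCompactSupport (W i) := by
    intro i
    obtain ⟨M, hM⟩ := hφc.isCompact.isBounded.bddAbove
    refine HasCompactSupport.intro (isCompact_closedBall (0 : V n) (Real.sqrt (M / a)))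
      fun y hy => ?_
    rw [hW]
    change φ (L y) * _ = 0
    have h5 : φ (L y) = 0 := by
      by_contra hne
      apply hy
      rw [mem_closedBall_zero_iff]
      have h6 : L y ≤ M := hM (subset_tsupport φ hne)
      apply Real.le_sqrt_of_sq_le
      rw [le_div_iff₀ ha]
      linarith [hLa y]
    rw [h5, zero_mul]
  -- the divergence
  have hdiv : ∀ y : V n, φ (L y) * ∑ i, ∑ j, gi L i j y * hh L v i j y =
      ∑ i, fderiv ℝ (W i) y (ee i) := by
    intro y
    by_cases hy : y = 0
    · rw [hy]
      have h5 : ∀ i, fderiv ℝ (W i) (0 : V n) (ee i) = 0 := by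
        intro i
        rw [(hWz i).fderiv_eq]
        simp
      rw [Finset.sum_congr rfl fun i _ => h5 i, Finset.sum_const_zero, hz.self_of_nhds, zero_mul]
    · obtain ⟨hLd, -, hpos, hdet, -⟩ := hpt y hy
      have hgd : ∀ i j, HasFDerivAt (gi L i j) (fderiv ℝ (gi L i j) y) y := fun i j =>
        ((hga i j y hy).differentiableAt (by simp)).hasFDerivAt
      have hFd : ∀ j, HasFDerivAt (F j) (fderiv ℝ (F j) y) y := fun j =>
        ((hFa j y hy).differentiableAt (by simp)).hasFDerivAt
      have hφd : HasDerivAt φ (deriv φ (L y)) (L y) :=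
        (hφ.differentiable (by simp) (L y)).hasDerivAt
      have hWd : ∀ i, fderiv ℝ (W i) y (ee i) =
          φ (L y) * ∑ j, (gi L i j y * fderiv ℝ (F j) y (ee i) +
            F j y * fderiv ℝ (gi L i j) y (ee i)) +
          (∑ j, gi L i j y * F j y) * (deriv φ (L y) * fderiv ℝ L y (ee i)) := by
        intro i
        have h5 : HasFDerivAt (fun y => ∑ j, gi L i j y * F j y)
            (∑ j, (gi L i j y • fderiv ℝ (F j) y + F j y • fderiv ℝ (gi L i j) y)) y :=
          HasFDerivAt.fun_sum fun j _ => (hgd i j).mul (hFd j)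
        have h6 : HasFDerivAt (fun y => φ (L y)) (deriv φ (L y) • fderiv ℝ L y) y :=
          hφd.comp_hasFDerivAt y hLd
        have h7 := h6.mul h5
        have h8 : HasFDerivAt (W i) (φ (L y) • (∑ j, (gi L i j y • fderiv ℝ (F j) y +
            F j y • fderiv ℝ (gi L i j) y)) +
            (∑ j, gi L i j y * F j y) • (deriv φ (L y) • fderiv ℝ L y)) y := by
          rw [hW]
          exact h7
        rw [h8.fderiv]
        simp only [_root_.add_apply, _root_.smul_apply, _root_.sum_apply, smul_eq_mul]
      rw [Finset.sum_congr rfl fun i _ => hWd i, Finset.sum_add_distrib]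
      -- the three parts
      have e1 : ∑ i, (∑ j, gi L i j y * F j y) * (deriv φ (L y) * fderiv ℝ L y (ee i)) = 0 := by
        have e2 : ∀ i, fderiv ℝ L y (ee i) = ∑ k, y k * gm L y k i := by
          intro i
          have e3 := (h1 n L hL y hy).2.1 (ee i)
          change d1 L y (ee i) = _
          rw [← e3]
          unfold d2
          rw [lin_expand (fderiv ℝ (fderiv ℝ L) y) y, _root_.sum_apply]
          refine Finset.sum_congr rfl fun k _ => ?_
          rw [_root_.smul_apply, smul_eq_mul]
          rfl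
        have e4 : ∀ k j, ∑ i, gm L y k i * gi L i j y = if k = j then 1 else 0 := by
          intro k j
          have e5 : gm L y * (gm L y)⁻¹ = 1 :=
            Matrix.mul_nonsing_inv _ (isUnit_iff_ne_zero.2 hdet.ne')
          have e6 := congrFun (congrFun e5 k) j
          rw [Matrix.mul_apply, Matrix.one_apply] at e6
          exact e6
        have e7 : ∑ j, y j * F j y = 0 := by
          have e8 : fderiv ℝ f y y = 0 := by
            refine radial_zero f y ((hfa y hy).differentiableAt (by simp)) fun c hc => ?_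
            rw [hf]
            exact ((h1 n L hL y hy).2.2.2.2 c hc).2.1 v v
          rw [lin_expand (fderiv ℝ f y) y] at e8
          rw [hF]
          exact e8
        calc ∑ i, (∑ j, gi L i j y * F j y) * (deriv φ (L y) * fderiv ℝ L y (ee i))
            = ∑ i, ∑ j, ∑ k, deriv φ (L y) * (y k * (gm L y k i * gi L i j y) * F j y) := by
              refine Finset.sum_congr rfl fun i _ => ?_
              rw [e2 i, Finset.sum_mul]
              refine Finset.sum_congr rfl fun j _ => ?_
              rw [Finset.mul_sum, Finset.mul_sum]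
              refine Finset.sum_congr rfl fun k _ => ?_
              ring
          _ = ∑ j, ∑ k, ∑ i, deriv φ (L y) * (y k * (gm L y k i * gi L i j y) * F j y) := by
              rw [Finset.sum_comm]
              refine Finset.sum_congr rfl fun j _ => ?_
              rw [Finset.sum_comm]
          _ = deriv φ (L y) * ∑ j, (∑ k, y k * ∑ i, gm L y k i * gi L i j y) * F j y := by
              rw [Finset.mul_sum]
              refine Finset.sum_congr rfl fun j _ => ?_
              rw [Finset.sum_mul, Finset.mul_sum]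
              refine Finset.sum_congr rfl fun k _ => ?_
              rw [Finset.mul_sum, Finset.sum_mul, Finset.mul_sum]
          _ = deriv φ (L y) * ∑ j, y j * F j y := by
              congr 1
              refine Finset.sum_congr rfl fun j _ => ?_
              congr 1
              simp only [e4]
              rw [Finset.sum_eq_single j]
              · rw [if_pos rfl, mul_one]
              · intro b _ hb
                rw [if_neg hb, mul_zero]
              · intro h
                exact absurd (Finset.mem_univ j) h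
          _ = 0 := by rw [e7, mul_zero]
      rw [e1, add_zero, ← Finset.mul_sum]
      congr 1
      have e9 : ∑ i, ∑ j, F j y * fderiv ℝ (gi L i j) y (ee i) = 0 := by
        rw [Finset.sum_comm]
        refine Finset.sum_eq_zero fun j _ => ?_
        rw [← Finset.mul_sum, h4 n L d hL hd y j hy, mul_zero]
      simp only [Finset.sum_add_distrib]
      rw [e9, add_zero]
      refine Finset.sum_congr rfl fun i _ => Finset.sum_congr rfl fun j _ => ?_
      congr 1
      rw [hF, hf]
      rfl
  calc ∫ y : V n, φ (L y) * ∑ i, ∑ j, gi L i j y * hh L v i j y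
      = ∫ y : V n, ∑ i, fderiv ℝ (W i) y (ee i) := integral_congr_ae (ae_of_all _ hdiv)
    _ = ∑ i, ∫ y : V n, fderiv ℝ (W i) y (ee i) :=
        integral_finsetSum _ fun i _ => (int_partial (W i) (hWs i) (hWc i) (ee i)).1
    _ = 0 := Finset.sum_eq_zero fun i _ => (int_partial (W i) (hWs i) (hWc i) (ee i)).2

end Pool.Agent.H81.FAB
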