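import Pool.Agent.H66.FA.T

/-!
# The limit of a trajectory
-/

set_option autoImplicit false

open Matrix

namespace Pool.Agent.H81.FAB

open Pool.Agent.H63.Fins Pool.Agent.H66.FA MeasureTheory Filter Topology

/-- **the limit of a trajectory** -/
theorem pf_LIM (h1 : T_EUL) (h2 : T_REG) (h3 : T_CPT) (h4 : T_XIS) (h5 : T_ODE) (h6 : T_MOM)
    (h7 : T_LOW) : T_LIM := by
  intro m B E L hL hE hAcc hSZ y hy
  have hy0 : y ≠ 0 := by
    rintro rfl
    exact lt_irrefl _ hy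
  obtain ⟨ξ, hξs, hξ⟩ := h4 m B L hL
  obtain ⟨δ, t₁, hδ, ht₁, hlow⟩ := h7 m B E L hL hE hAcc y hy
  have hc : 0 < L y := (h1 (m + 1) L hL y hy0).2.2.2.1
  obtain ⟨-, hd1, -, -, hDD, -, -⟩ := h2 (m + 1) L hL
  -- the points of the trajectories
  have hk : ∀ k : ℕ, ∃ (z : V (m + 1)) (s : ℝ), L z = L y ∧ δ ≤ z 0 ∧ DD L z = DD L y ∧
      δ * (k + 1) ≤ s ∧ ∀ u : V (m + 1), u 0 = 0 → d1 L z u = d1 L y (E (-s) u) := by
    intro k
    obtain ⟨T, hT⟩ : ∃ T : ℝ, T = t₁ + k + 2 := ⟨_, rfl⟩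
    obtain ⟨τ, hτ⟩ : ∃ τ : ℝ, τ = t₁ + k + 1 := ⟨_, rfl⟩
    have hk0 : (0 : ℝ) ≤ k := Nat.cast_nonneg k
    obtain ⟨γ, hγ0, hγ⟩ := h5 (m + 1) L ξ hL hξs (fun y hy => (hξ y hy).2) y hy0 T (by linarith)
    have htr : IsTr B L γ T := by
      intro t ht
      exact ⟨(hγ t ht).1, ξ (γ t), (hγ t ht).2, (hξ (γ t) (hγ t ht).1).1⟩
    have hτT : τ ∈ Set.Ico (0 : ℝ) T := ⟨by linarith, by linarith⟩
    obtain ⟨m1, m2, m3⟩ := h6 m B E L hL hE γ T htr τ hτT
    rw [hγ0] at m1 m2 m3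
    refine ⟨γ τ, ∫ s in (0 : ℝ)..τ, γ s 0, m1, (hlow γ T htr hγ0 τ hτT).2 (by linarith), m3 hSZ,
      ?_, m2⟩
    have hcont : ContinuousOn (fun s => γ s 0) (Set.Ioo (-1 : ℝ) T) := by
      intro s hs
      have hc1 : ContinuousAt γ s := (hγ s hs).2.continuousAt
      exact (continuousAt_pi.1 hc1 0).continuousWithinAt
    have hint : ∀ a b : ℝ, 0 ≤ a → a ≤ b → b < T →
        IntervalIntegrable (fun s => γ s 0) volume a b := by
      intro a b ha hab hb
      apply ContinuousOn.intervalIntegrable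
      rw [Set.uIcc_of_le hab]
      exact hcont.mono fun s hs => ⟨by linarith [hs.1], by linarith [hs.2]⟩
    have hi1 := hint 0 t₁ le_rfl ht₁.le (by linarith)
    have hi2 := hint t₁ τ ht₁.le (by linarith) (by linarith)
    rw [← intervalIntegral.integral_add_adjacent_intervals hi1 hi2]
    have e1 : 0 ≤ ∫ s in (0 : ℝ)..t₁, γ s 0 := by
      apply intervalIntegral.integral_nonneg ht₁.le
      intro s hs
      exact (hlow γ T htr hγ0 s ⟨hs.1, by linarith [hs.2]⟩).1.le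
    have e2 : δ * (k + 1) ≤ ∫ s in t₁..τ, γ s 0 := by
      have h8 : ∫ _s in t₁..τ, δ ≤ ∫ s in t₁..τ, γ s 0 := by
        apply intervalIntegral.integral_mono_on (by linarith) (by simp) hi2
        intro s hs
        exact (hlow γ T htr hγ0 s ⟨by linarith [hs.1], by linarith [hs.2]⟩).2 hs.1
      rw [intervalIntegral.integral_const, smul_eq_mul] at h8
      have e3 : (τ - t₁) * δ = δ * (k + 1) := by
        rw [hτ]
        ring
      rwa [e3] at h8
    linarith
  choose z s hz1 hz2 hz3 hz4 hz5 using hk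
  have hcomp := (h3 (m + 1) L hL).2 (L y) hc
  obtain ⟨w, hw, φ, hφ, hlim⟩ := hcomp.tendsto_subseq fun k => (hz1 k : z k ∈ {y' | L y' = L y})
  have hLw : L w = L y := hw
  have hw0 : w ≠ 0 := by
    rintro rfl
    rw [hL.zero] at hLw
    exact hc.ne hLw
  have hopen : IsOpen {y : V (m + 1) | y ≠ 0} := isOpen_ne
  refine ⟨w, ?_, ?_, ?_⟩
  · have h8 : Tendsto (fun k => z (φ k) 0) atTop (𝓝 (w 0)) :=
      (tendsto_pi_nhds.1 hlim) 0
    exact lt_of_lt_of_le hδ (ge_of_tendsto' h8 fun k => hz2 (φ k))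
  · intro u hu
    have hca : ContinuousAt (fun p : V (m + 1) × V (m + 1) => d1 L p.1 p.2) (w, u) := by
      refine hd1.continuousAt ?_
      have : IsOpen {p : V (m + 1) × V (m + 1) | p.1 ≠ 0} := isOpen_ne.preimage continuous_fst
      exact this.mem_nhds hw0
    have h8 : Tendsto (fun k => d1 L (z (φ k)) u) atTop (𝓝 (d1 L w u)) := by
      have h9 : Tendsto (fun k => ((z ∘ φ) k, u)) atTop (𝓝 (w, u)) :=
        hlim.prodMk_nhds tendsto_const_nhds
      exact hca.tendsto.comp h9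
    have hs : Tendsto (fun k => s (φ k)) atTop atTop := by
      refine tendsto_atTop_mono (fun k => hz4 (φ k)) ?_
      have h9 : Tendsto (fun k : ℕ => ((φ k : ℕ) : ℝ)) atTop atTop :=
        tendsto_natCast_atTop_atTop.comp hφ.tendsto_atTop
      exact (tendsto_atTop_add_const_right _ 1 h9).const_mul_atTop hδ
    have h10 : Tendsto (fun k => d1 L (z (φ k)) u) atTop (𝓝 0) := by
      have h11 : Tendsto (fun k => E (-(s (φ k))) u) atTop (𝓝 0) := (hE.lim u hu).comp hs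
      have h12 : Tendsto (fun k => (fderiv ℝ L y) (E (-(s (φ k))) u)) atTop
          (𝓝 ((fderiv ℝ L y) 0)) := ((fderiv ℝ L y).continuous.tendsto 0).comp h11
      rw [map_zero] at h12
      refine h12.congr fun k => ?_
      exact (hz5 (φ k) u hu).symm
    exact tendsto_nhds_unique h8 h10
  · have hca : ContinuousAt (DD L) w := hDD.continuousOn.continuousAt (hopen.mem_nhds hw0)
    have h8 : Tendsto (fun k => DD L (z (φ k))) atTop (𝓝 (DD L w)) := hca.tendsto.comp hlim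
    have h9 : Tendsto (fun k => DD L (z (φ k))) atTop (𝓝 (DD L y)) := by
      refine tendsto_const_nhds.congr fun k => ?_
      exact (hz3 (φ k)).symm
    exact tendsto_nhds_unique h8 h9

end Pool.Agent.H81.FAB
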